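import Mathlib

set_option autoImplicit false

/-!
# The incidence groups of complete bipartite graphs, Kazhdan's property (T)
-/

namespace Pool.Agent.H60.KT

/-- The free group on the cells of an array with `m` rows and `n` columns, that is, on the edges
of the complete bipartite graph `K_{m,n}`. -/
abbrev F (m n : ℕ) : Type := FreeGroup (Fin m × Fin n)

/-- The generator of the cell in row `i` and column `j`. -/
def x {m n : ℕ} (i : Fin m) (j : Fin n) : F m n := FreeGroup.of (i, j)

/-- The relators: the generators are involutions, generators in one row commute, generators in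
one column commute, the product of each row is trivial, the product of each column is trivial. -/
inductive Rel (m n : ℕ) : F m n → Prop
  | sq (i : Fin m) (j : Fin n) : Rel m n (x i j * x i j)
  | row_comm (i : Fin m) (j l : Fin n) : Rel m n (x i j * x i l * (x i l * x i j)⁻¹)
  | col_comm (i k : Fin m) (j : Fin n) : Rel m n (x i j * x k j * (x k j * x i j)⁻¹)
  | row (i : Fin m) : Rel m n (List.ofFn fun j : Fin n => x i j).prod
  | col (j : Fin n) : Rel m n (List.ofFn fun i : Fin m => x i j).prod

/-- The incidence group of the complete bipartite graph `K_{m,n}`. -/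
abbrev Gam (m n : ℕ) : Type := PresentedGroup {r : F m n | Rel m n r}

/-- Kazhdan's property (T): every unitary representation which has almost invariant vectors has a
nonzero invariant vector. -/
def KazhdanT (G : Type) [Group G] : Prop :=
  ∀ (H : Type) [NormedAddCommGroup H] [InnerProductSpace ℂ H] [CompleteSpace H]
    (ρ : G →* (H ≃ₗᵢ[ℂ] H)),
    (∀ (S : Finset G) (ε : ℝ), 0 < ε → ∃ v : H, ‖v‖ = 1 ∧ ∀ g ∈ S, ‖ρ g v - v‖ < ε) →
    ∃ v : H, v ≠ 0 ∧ ∀ g : G, ρ g v = v

end Pool.Agent.H60.KT
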