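import Pool.Agent.H60.KT.Hom

set_option autoImplicit false

/-!
# Finiteness
-/

namespace Pool.Agent.H60.KT

variable {G : Type} [Group G]

/-- Finitely many commuting involutions generate a finite group. -/
theorem finite_closure {s : Set G} (hs : s.Finite) (hc : ∀ x ∈ s, ∀ y ∈ s, x * y = y * x)
    (h2 : ∀ x ∈ s, x * x = 1) : Finite (Subgroup.closure s) := by
  letI : CommGroup (Subgroup.closure s) := Subgroup.closureCommGroupOfComm hc
  haveI := hs.to_subtype
  haveI : Group.FG (Subgroup.closure s) := Group.closure_finite_fg s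
  apply CommGroup.finite_of_fg_torsion
  rintro ⟨g, hg⟩
  have key : (⟨g, hg⟩ : Subgroup.closure s) * ⟨g, hg⟩ = 1 := by
    induction hg using Subgroup.closure_induction with
    | mem y hy => exact Subtype.ext (h2 y hy)
    | one => exact Subtype.ext (one_mul 1)
    | mul y z hy hz h1 h3 =>
      have e : (⟨y * z, mul_mem hy hz⟩ : Subgroup.closure s) = ⟨y, hy⟩ * ⟨z, hz⟩ := rfl
      rw [e, mul_mul_mul_comm, h1, h3, one_mul]
    | inv y hy h1 =>
      have e : (⟨y⁻¹, inv_mem hy⟩ : Subgroup.closure s) = (⟨y, hy⟩)⁻¹ := rfl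
      rw [e, ← mul_inv, h1, inv_one]
  exact isOfFinOrder_iff_pow_eq_one.2 ⟨2, by norm_num, by rw [pow_two]; exact key⟩

/-- If `a`, `b` are homomorphisms of a finite group `V` of exponent two such that `a v` and `b v`
commute for all `v`, then `a` and `b` together generate a finite group. -/
theorem finite_of_pair {V : Type} [CommGroup V] [Finite V] (hV : ∀ v : V, v * v = 1)
    (a b : V →* G) (hab : ∀ v, a v * b v = b v * a v)
    (hgen : Subgroup.closure (Set.range a ∪ Set.range b) = ⊤) : Finite G := by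
  have ha : ∀ v, a v * a v = 1 := fun v => by rw [← map_mul, hV, map_one]
  have hb : ∀ v, b v * b v = 1 := fun v => by rw [← map_mul, hV, map_one]
  have haa : ∀ u v, a (u * v) * a v = a u := fun u v => by rw [← map_mul, mul_assoc, hV, mul_one]
  have haa' : ∀ u v, a u * a (u * v) = a v := fun u v => by rw [← map_mul, ← mul_assoc, hV, one_mul]
  set c : V → G := fun v => a v * b v with hcdef
  have hcc : ∀ u v, c u * c v = c v * c u := by
    intro u v
    have e1 : c u * c v = a u * b (u * v) * a v := by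
      simp only [hcdef]
      rw [hab v, map_mul]
      simp only [mul_assoc]
    have e2 : c v * c u = a v * b (u * v) * a u := by
      simp only [hcdef]
      rw [hab u, mul_comm u v, map_mul]
      simp only [mul_assoc]
    rw [e1, e2]
    calc a u * b (u * v) * a v = a u * (b (u * v) * a (u * v)) * a u := by
          have : a v = a (u * v) * a u := by rw [mul_comm u v, haa]
          rw [this]; simp only [mul_assoc]
      _ = a u * (a (u * v) * b (u * v)) * a u := by rw [hab]
      _ = a v * b (u * v) * a u := by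
          rw [← mul_assoc (a u), haa']
  have hc2 : ∀ v, c v * c v = 1 := by
    intro v
    calc c v * c v = a v * b v * (b v * a v) := by simp only [hcdef]; rw [hab v]
      _ = a v * (b v * b v) * a v := by simp only [mul_assoc]
      _ = 1 := by rw [hb, mul_one, ha]
  have hconj : ∀ w v, a w * c v * a w = c w * c (w * v) := by
    intro w v
    calc a w * c v * a w = a w * (b v * a v) * a w := by simp only [hcdef]; rw [hab v]
      _ = a w * b v * (a v * a w) := by simp only [mul_assoc]
      _ = a w * b v * a (w * v) := by rw [← map_mul, mul_comm v w]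
      _ = a w * (b w * b (w * v)) * a (w * v) := by
          rw [← map_mul, ← mul_assoc, hV, one_mul]
      _ = a w * b w * (b (w * v) * a (w * v)) := by simp only [mul_assoc]
      _ = c w * c (w * v) := by simp only [hcdef]; rw [hab (w * v)]
  set C := Subgroup.closure (Set.range c) with hC
  haveI : Finite C := finite_closure (Set.finite_range c)
    (by rintro _ ⟨u, rfl⟩ _ ⟨v, rfl⟩; exact hcc u v) (by rintro _ ⟨u, rfl⟩; exact hc2 u)
  have hcC : ∀ v, c v ∈ C := fun v => Subgroup.subset_closure ⟨v, rfl⟩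
  have hnorm : ∀ w, ∀ z ∈ C, a w * z * a w ∈ C := by
    intro w z hz
    induction hz using Subgroup.closure_induction with
    | mem y hy =>
      obtain ⟨v, rfl⟩ := hy
      rw [hconj]
      exact mul_mem (hcC _) (hcC _)
    | one => rw [mul_one, ha]; exact one_mem _
    | mul y z _ _ h1 h3 =>
      have : a w * (y * z) * a w = (a w * y * a w) * (a w * z * a w) := by
        calc a w * (y * z) * a w = a w * y * 1 * z * a w := by simp only [mul_assoc, one_mul]
          _ = a w * y * (a w * a w) * z * a w := by rw [ha]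
          _ = _ := by simp only [mul_assoc]
      rw [this]
      exact mul_mem h1 h3
    | inv y _ h1 =>
      have : a w * y⁻¹ * a w = (a w * y * a w)⁻¹ := by
        have h4 : (a w)⁻¹ = a w := inv_eq_of_mul_eq_one_left (ha w)
        rw [mul_inv_rev, mul_inv_rev, h4, mul_assoc]
      rw [this]
      exact inv_mem h1
  have hsurj : Function.Surjective (fun p : V × C => a p.1 * (p.2 : G)) := by
    intro g
    have hg : g ∈ Subgroup.closure (Set.range a ∪ Set.range b) := by rw [hgen]; trivial
    suffices h : ∃ u, ∃ z ∈ C, g = a u * z by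
      obtain ⟨u, z, hz, rfl⟩ := h
      exact ⟨(u, ⟨z, hz⟩), rfl⟩
    induction hg using Subgroup.closure_induction with
    | mem y hy =>
      rcases hy with ⟨v, rfl⟩ | ⟨v, rfl⟩
      · exact ⟨v, 1, one_mem _, (mul_one _).symm⟩
      · refine ⟨v, c v, hcC v, ?_⟩
        simp only [hcdef]
        rw [← mul_assoc, ha, one_mul]
    | one => exact ⟨1, 1, one_mem _, by rw [map_one, one_mul]⟩
    | mul y z _ _ h1 h3 =>
      obtain ⟨u, p, hp, rfl⟩ := h1
      obtain ⟨v, q, hq, rfl⟩ := h3
      refine ⟨u * v, a v * p * a v * q, mul_mem (hnorm v p hp) hq, ?_⟩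
      calc a u * p * (a v * q) = a u * (1 * p) * a v * q := by simp only [mul_assoc, one_mul]
        _ = a u * (a v * a v * p) * a v * q := by rw [ha]
        _ = _ := by rw [map_mul]; simp only [mul_assoc]
    | inv y _ h1 =>
      obtain ⟨u, p, hp, rfl⟩ := h1
      refine ⟨u, a u * p⁻¹ * a u, hnorm u _ (inv_mem hp), ?_⟩
      have h4 : (a u)⁻¹ = a u := inv_eq_of_mul_eq_one_left (ha u)
      calc (a u * p)⁻¹ = 1 * p⁻¹ * a u := by rw [mul_inv_rev, h4, one_mul]
        _ = a u * a u * p⁻¹ * a u := by rw [ha]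
        _ = _ := by simp only [mul_assoc]
  exact Finite.of_surjective _ hsurj

/-! ### Two rows -/

theorem finite_two (n : ℕ) : Finite (Gam 2 n) := by
  have h := arrX 2 n
  have h1 : ∀ j, X 2 n 1 j = X 2 n 0 j := by
    intro j
    have h2 := h.col j
    rw [List.ofFn_succ, List.ofFn_succ, List.ofFn_zero, List.prod_cons, List.prod_cons,
      List.prod_nil, mul_one] at h2
    have h3 : X 2 n 0 j * X 2 n 1 j = X 2 n 0 j * X 2 n 0 j := by
      rw [h.sq]; exact h2
    exact mul_left_cancel h3
  have h0 : ∀ (i : Fin 2) j, X 2 n i j = X 2 n 0 j := by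
    intro i j
    fin_cases i
    · rfl
    · exact h1 j
  have hfin : Finite (Subgroup.closure {g : Gam 2 n | ∃ i j, g = X 2 n i j}) := by
    apply finite_closure
    · refine (Set.finite_range fun p : Fin 2 × Fin n => X 2 n p.1 p.2).subset ?_
      rintro _ ⟨i, j, rfl⟩
      exact ⟨(i, j), rfl⟩
    · rintro _ ⟨i, j, rfl⟩ _ ⟨k, l, rfl⟩
      rw [h0 i, h0 k]
      exact h.row_comm 0 j l
    · rintro _ ⟨i, j, rfl⟩
      exact h.sq i j
  rw [closure_X] at hfin
  exact Finite.of_injective (fun g : Gam 2 n => (⟨g, trivial⟩ : (⊤ : Subgroup (Gam 2 n))))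
    (fun g g' hg => congrArg Subtype.val hg)

/-! ### Five rows and three columns -/

/-- The homomorphism of the group of signs given by an involution. -/
def two (g : G) (hg : g * g = 1) : ℤˣ →* G where
  toFun z := if z = 1 then 1 else g
  map_one' := if_pos rfl
  map_mul' z w := by
    rcases Int.units_eq_one_or z with rfl | rfl <;> rcases Int.units_eq_one_or w with rfl | rfl <;>
      simp [hg]

theorem two_neg (g : G) (hg : g * g = 1) : two g hg (-1) = g := by
  show (if (-1 : ℤˣ) = 1 then 1 else g) = g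
  rw [if_neg (by decide)]

/-- The unit vectors. -/
abbrev ev (i : Fin 5) : Fin 5 → ℤˣ := Pi.mulSingle i (-1)

/-- The constant vector. -/
abbrev al : Fin 5 → ℤˣ := fun _ => -1

theorem al_eq : al = ev 0 * ev 1 * ev 2 * ev 3 * ev 4 := by decide

theorem cases_v : ∀ v : Fin 5 → ℤˣ, ∃ i j : Fin 5, v = ev i * ev j ∨ v = ev i ∨
    v = ev i * ev j * al ∨ v = ev i * al := by decide

/-- The homomorphism given by the column `j`. -/
noncomputable def cl (j : Fin 3) : (Fin 5 → ℤˣ) →* Gam 5 3 :=
  MonoidHom.noncommPiCoprod (fun i => two (X 5 3 i j) ((arrX 5 3).sq i j)) (by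
    intro i k _ z w
    rcases Int.units_eq_one_or z with rfl | rfl <;> rcases Int.units_eq_one_or w with rfl | rfl <;>
      simp only [map_one, two_neg]
    · exact Commute.one_left _
    · exact Commute.one_left _
    · exact Commute.one_right _
    · exact (arrX 5 3).col_comm i k j)

theorem cl_ev (j : Fin 3) (i : Fin 5) : cl j (ev i) = X 5 3 i j := by
  unfold cl ev
  rw [MonoidHom.noncommPiCoprod_mulSingle, two_neg]

theorem cl_al (j : Fin 3) : cl j al = 1 := by
  rw [al_eq]
  simp only [map_mul, cl_ev]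
  have h := (arrX 5 3).col j
  simp only [List.ofFn_succ, List.ofFn_zero, List.prod_cons, List.prod_nil, mul_one] at h
  simp only [mul_assoc]
  exact h

theorem x2_eq (i : Fin 5) : X 5 3 i 2 = X 5 3 i 0 * X 5 3 i 1 := by
  have h := (arrX 5 3).row i
  simp only [List.ofFn_succ, List.ofFn_zero, List.prod_cons, List.prod_nil, mul_one] at h
  have h1 : X 5 3 i 0 * (X 5 3 i 1 * X 5 3 i 2) = 1 := h
  have h2 := (arrX 5 3).sq i
  calc X 5 3 i 2 = (X 5 3 i 1 * X 5 3 i 1) * X 5 3 i 2 := by rw [h2, one_mul]
    _ = X 5 3 i 1 * (X 5 3 i 0 * X 5 3 i 0) * (X 5 3 i 1 * X 5 3 i 2) := by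
        rw [h2 0, mul_one, mul_assoc]
    _ = X 5 3 i 1 * X 5 3 i 0 * (X 5 3 i 0 * (X 5 3 i 1 * X 5 3 i 2)) := by simp only [mul_assoc]
    _ = X 5 3 i 1 * X 5 3 i 0 := by rw [h1, mul_one]
    _ = X 5 3 i 0 * X 5 3 i 1 := (arrX 5 3).row_comm i 1 0

theorem pair_comm (i k : Fin 5) : (X 5 3 i 0 * X 5 3 k 0) * (X 5 3 i 1 * X 5 3 k 1) =
    (X 5 3 i 1 * X 5 3 k 1) * (X 5 3 i 0 * X 5 3 k 0) := by
  have hc := (arrX 5 3).col_comm i k 2
  rw [x2_eq, x2_eq] at hc
  have hA := (arrX 5 3).sq k 0
  have hB' := (arrX 5 3).sq k 1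
  have hAA := (arrX 5 3).col_comm i k 0
  have hBB := (arrX 5 3).col_comm i k 1
  have hAB := (arrX 5 3).row_comm i 0 1
  have hAB' := (arrX 5 3).row_comm k 0 1
  set A := X 5 3 i 0
  set B := X 5 3 i 1
  set A' := X 5 3 k 0
  set B' := X 5 3 k 1
  calc A * A' * (B * B') = A' * (A * B) * B' := by rw [hAA]; simp only [mul_assoc]
    _ = A' * (A * B) * 1 * B' := by rw [mul_one]
    _ = A' * (A * B) * (A' * (B' * B') * A') * B' := by rw [hB', mul_one A', hA]
    _ = A' * (A * B * (A' * B')) * (B' * A') * B' := by simp only [mul_assoc]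
    _ = A' * (A' * B' * (A * B)) * (B' * A') * B' := by rw [hc]
    _ = (A' * A') * B' * (A * B) * (B' * A') * B' := by simp only [mul_assoc]
    _ = B' * (A * B) * (B' * A') * B' := by rw [hA, one_mul]
    _ = B' * (A * B) * B' * (A' * B') := by simp only [mul_assoc]
    _ = B' * (A * B) * (B' * B') * A' := by rw [hAB']; simp only [mul_assoc]
    _ = B' * (B * A) * A' := by rw [hB', mul_one, hAB]
    _ = (B' * B) * (A * A') := by simp only [mul_assoc]
    _ = B * B' * (A * A') := by rw [← hBB]

theorem cl_comm (v : Fin 5 → ℤˣ) : cl 0 v * cl 1 v = cl 1 v * cl 0 v := by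
  obtain ⟨i, j, h | h | h | h⟩ := cases_v v
  · rw [h, map_mul, map_mul]
    simp only [cl_ev]
    exact pair_comm i j
  · rw [h]
    simp only [cl_ev]
    exact (arrX 5 3).row_comm i 0 1
  · rw [h]
    simp only [map_mul, cl_al, mul_one, cl_ev]
    exact pair_comm i j
  · rw [h]
    simp only [map_mul, cl_al, mul_one, cl_ev]
    exact (arrX 5 3).row_comm i 0 1

theorem finite_five : Finite (Gam 5 3) := by
  apply finite_of_pair (V := Fin 5 → ℤˣ) (a := cl 0) (b := cl 1) _ cl_comm
  · rw [eq_top_iff, ← closure_X, Subgroup.closure_le]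
    rintro _ ⟨i, j, rfl⟩
    have h0 : X 5 3 i 0 ∈ Subgroup.closure (Set.range (cl 0) ∪ Set.range (cl 1)) :=
      Subgroup.subset_closure (Or.inl ⟨ev i, cl_ev 0 i⟩)
    have h1 : X 5 3 i 1 ∈ Subgroup.closure (Set.range (cl 0) ∪ Set.range (cl 1)) :=
      Subgroup.subset_closure (Or.inr ⟨ev i, cl_ev 1 i⟩)
    fin_cases j
    · exact h0
    · exact h1
    · show X 5 3 i 2 ∈ _
      rw [x2_eq]
      exact mul_mem h0 h1
  · intro v
    funext i
    exact Int.units_mul_self (v i)

end Pool.Agent.H60.KT
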