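import Pool.Agent.H60.KT.Rep

set_option autoImplicit false

/-!
# Homomorphisms of the incidence groups to the permutations of the lattice of dimension four
-/

namespace Pool.Agent.H60.KT

/-! ### Homomorphisms out of `Gam m n` -/

/-- An array of permutations with the properties of the generators. -/
structure Arr (m n : ℕ) (P : Type) [Group P] (T : Fin m → Fin n → P) : Prop where
  sq : ∀ i j, T i j * T i j = 1
  row_comm : ∀ i j l, T i j * T i l = T i l * T i j
  col_comm : ∀ i k j, T i j * T k j = T k j * T i j
  row : ∀ i, (List.ofFn fun j => T i j).prod = 1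
  col : ∀ j, (List.ofFn fun i => T i j).prod = 1

variable {m n : ℕ} {P : Type} [Group P] {T : Fin m → Fin n → P}

theorem lift_rel (h : Arr m n P T) (r : F m n) (hr : Rel m n r) :
    FreeGroup.lift (fun c : Fin m × Fin n => T c.1 c.2) r = 1 := by
  have hx : ∀ i j, FreeGroup.lift (fun c : Fin m × Fin n => T c.1 c.2) (x i j) = T i j :=
    fun i j => FreeGroup.lift_apply_of ..
  cases hr with
  | sq i j => rw [map_mul, hx, h.sq]
  | row_comm i j l =>
    rw [map_mul, map_inv, map_mul, map_mul, hx, hx, h.row_comm, mul_inv_cancel]
  | col_comm i k j =>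
    rw [map_mul, map_inv, map_mul, map_mul, hx, hx, h.col_comm, mul_inv_cancel]
  | row i =>
    rw [map_list_prod, List.map_ofFn]
    simpa [Function.comp_def, hx] using h.row i
  | col j =>
    rw [map_list_prod, List.map_ofFn]
    simpa [Function.comp_def, hx] using h.col j

/-- The homomorphism given by an array. -/
def Arr.hom (h : Arr m n P T) : Gam m n →* P :=
  PresentedGroup.toGroup (f := fun c : Fin m × Fin n => T c.1 c.2) (fun r hr => lift_rel h r hr)

theorem Arr.hom_of (h : Arr m n P T) (i : Fin m) (j : Fin n) :
    h.hom (PresentedGroup.of (i, j)) = T i j := PresentedGroup.toGroup.of _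

/-- The generators of `Gam m n`. -/
abbrev X (m n : ℕ) (i : Fin m) (j : Fin n) : Gam m n := PresentedGroup.of (i, j)

theorem arrX (m n : ℕ) : Arr m n (Gam m n) (X m n) where
  sq i j := by
    have := PresentedGroup.one_of_mem (rels := {r : F m n | Rel m n r}) (Rel.sq i j)
    rw [map_mul] at this
    exact this
  row_comm i j l := by
    have := PresentedGroup.one_of_mem (rels := {r : F m n | Rel m n r}) (Rel.row_comm i j l)
    rw [map_mul, map_inv, map_mul, map_mul] at this
    exact mul_inv_eq_one.1 this
  col_comm i k j := by
    have := PresentedGroup.one_of_mem (rels := {r : F m n | Rel m n r}) (Rel.col_comm i k j)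
    rw [map_mul, map_inv, map_mul, map_mul] at this
    exact mul_inv_eq_one.1 this
  row i := by
    have := PresentedGroup.one_of_mem (rels := {r : F m n | Rel m n r}) (Rel.row i)
    rw [map_list_prod, List.map_ofFn] at this
    exact this
  col j := by
    have := PresentedGroup.one_of_mem (rels := {r : F m n | Rel m n r}) (Rel.col j)
    rw [map_list_prod, List.map_ofFn] at this
    exact this

/-- The group is generated by the generators. -/
theorem closure_X (m n : ℕ) :
    Subgroup.closure {g : Gam m n | ∃ i j, g = X m n i j} = ⊤ := by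
  rw [eq_top_iff, ← PresentedGroup.closure_range_of]
  apply Subgroup.closure_mono
  rintro _ ⟨⟨i, j⟩, rfl⟩
  exact ⟨i, j, rfl⟩

/-- The transposed array. -/
theorem Arr.swap (h : Arr m n P T) : Arr n m P (fun j i => T i j) where
  sq i j := h.sq j i
  row_comm i j l := h.col_comm j l i
  col_comm i k j := h.row_comm j i k
  row i := h.col i
  col j := h.row j

/-- The homomorphism given by an array is onto if the array generates. -/
theorem Arr.surj (h : Arr m n P T) (hT : Subgroup.closure {g : P | ∃ i j, g = T i j} = ⊤) :
    Function.Surjective h.hom := by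
  rw [← MonoidHom.range_eq_top, eq_top_iff, ← hT, Subgroup.closure_le]
  rintro _ ⟨i, j, rfl⟩
  exact ⟨X m n i j, h.hom_of i j⟩

end Pool.Agent.H60.KT
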