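import Pool.Agent.H60.KT.Pad

set_option autoImplicit false

/-!
# The incidence groups of `K_{6,3}` and `K_{4,4}` do not have property (T)
-/

namespace Pool.Agent.H60.KT

/-! ### Six rows and three columns -/

/-- Nine affine signed permutations of order two. -/
def act : Fin 3 → Fin 3 → Z4 → Z4
  | 0, 0, (x, y, z, w) => (1 - y, 1 - x, 1 - w, 1 - z)
  | 0, 1, (x, y, z, w) => (2 - x, -y, z, w)
  | 0, 2, (x, y, z, w) => (1 + y, x - 1, 1 - w, 1 - z)
  | 1, 0, (x, y, z, w) => (z, w, x, y)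
  | 1, 1, (x, y, z, w) => (x, -y, z, -w)
  | 1, 2, (x, y, z, w) => (z, -w, x, -y)
  | 2, 0, (x, y, z, w) => (w, z, y, x)
  | 2, 1, (x, y, z, w) => (x, -y, -z, w)
  | 2, 2, (x, y, z, w) => (w, -z, -y, x)

theorem act_act (c j : Fin 3) (p : Z4) : act c j (act c j p) = p := by
  obtain ⟨x, y, z, w⟩ := p
  fin_cases c <;> fin_cases j <;> simp [act]

theorem act_row_comm (c j l : Fin 3) (p : Z4) : act c j (act c l p) = act c l (act c j p) := by
  obtain ⟨x, y, z, w⟩ := p
  fin_cases c <;> fin_cases j <;> fin_cases l <;> simp [act] <;> omega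

theorem act_col_comm (c d j : Fin 3) (p : Z4) : act c j (act d j p) = act d j (act c j p) := by
  obtain ⟨x, y, z, w⟩ := p
  fin_cases c <;> fin_cases d <;> fin_cases j <;> simp [act] <;> omega

theorem act_row (c : Fin 3) (p : Z4) : act c 0 (act c 1 (act c 2 p)) = p := by
  obtain ⟨x, y, z, w⟩ := p
  fin_cases c <;> simp [act]
  ring

theorem N_act (c j : Fin 3) (p : Z4) : N (act c j p) ≤ N p + 2 := by
  obtain ⟨x, y, z, w⟩ := p
  fin_cases c <;> fin_cases j <;> simp [act, N] <;> omega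

/-- The permutations. -/
def A (c j : Fin 3) : Equiv.Perm Z4 := ⟨act c j, act c j, act_act c j, act_act c j⟩

theorem A_sq (c j : Fin 3) : A c j * A c j = 1 := Equiv.ext (act_act c j)

/-- Two rows each are identified. -/
def cls : Fin 6 → Fin 3 := ![0, 0, 1, 1, 2, 2]

theorem arr63 : Arr 6 3 (Equiv.Perm Z4) (fun i j => A (cls i) j) where
  sq i j := A_sq _ _
  row_comm i j l := Equiv.ext (act_row_comm _ _ _)
  col_comm i k j := Equiv.ext (act_col_comm _ _ _)
  row i := by
    simp only [List.ofFn_succ, List.ofFn_zero, List.prod_cons, List.prod_nil, mul_one]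
    exact Equiv.ext (act_row _)
  col j := by
    simp only [List.ofFn_succ, List.ofFn_zero, List.prod_cons, List.prod_nil, mul_one]
    show A 0 j * (A 0 j * (A 1 j * (A 1 j * (A 2 j * A 2 j)))) = 1
    rw [A_sq, mul_one, A_sq, mul_one, A_sq]

theorem not_T_63 : ¬ KazhdanT (Gam 6 3) := by
  refine not_T_of_arr arr63 (fun i j p => N_act _ _ p)
    (X 6 3 0 0 * X 6 3 2 1 * X 6 3 0 0 * X 6 3 2 1 * (X 6 3 2 0 * X 6 3 4 1 * X 6 3 2 0 *
      X 6 3 4 1)) (2, 0, 2, 0) (by simp) fun p => ?_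
  obtain ⟨x, y, z, w⟩ := p
  simp only [map_mul, arr63.hom_of]
  show act 0 0 (act 1 1 (act 0 0 (act 1 1 (act 1 0 (act 2 1 (act 1 0 (act 2 1 (x, y, z, w)))))))) = _
  simp only [act]
  ext <;> simp <;> ring

/-! ### Four rows and four columns -/

/-- The point reflections in the two halves of the array. -/
def ref (s : ℤ) : Equiv.Perm Z4 where
  toFun p := (s, 0, 0, 0) - p
  invFun p := (s, 0, 0, 0) - p
  left_inv p := by simp
  right_inv p := by simp

theorem ref_sq (s : ℤ) : ref s * ref s = 1 := Equiv.ext fun p => by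
  show (s, 0, 0, 0) - ((s, 0, 0, 0) - p) = p
  simp

/-- The array of two disjoint cycles. -/
def B (i j : Fin 4) : Equiv.Perm Z4 :=
  if i < 2 ∧ j < 2 then ref 0 else if 2 ≤ i ∧ 2 ≤ j then ref 1 else 1

theorem arr44 : Arr 4 4 (Equiv.Perm Z4) B where
  sq i j := by
    unfold B
    split
    · exact ref_sq 0
    · split
      · exact ref_sq 1
      · rfl
  row_comm i j l := by
    fin_cases i <;> fin_cases j <;> fin_cases l <;> simp [B]
  col_comm i k j := by
    fin_cases i <;> fin_cases j <;> fin_cases k <;> simp [B]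
  row i := by
    simp only [List.ofFn_succ, List.ofFn_zero, List.prod_cons, List.prod_nil, mul_one]
    fin_cases i <;> simp [B, ref_sq]
  col j := by
    simp only [List.ofFn_succ, List.ofFn_zero, List.prod_cons, List.prod_nil, mul_one]
    fin_cases j <;> simp [B, ref_sq]

theorem N_ref (s : ℤ) (hs : s = 0 ∨ s = 1) (p : Z4) : N (ref s p) ≤ N p + 2 := by
  obtain ⟨x, y, z, w⟩ := p
  show N ((s, 0, 0, 0) - (x, y, z, w)) ≤ _
  simp only [N, Prod.mk_sub_mk]
  omega

theorem not_T_44 : ¬ KazhdanT (Gam 4 4) := by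
  refine not_T_of_arr arr44 (fun i j p => ?_) (X 4 4 2 2 * X 4 4 0 0) (1, 0, 0, 0) (by simp)
    fun p => ?_
  · unfold B
    split
    · exact N_ref 0 (Or.inl rfl) p
    · split
      · exact N_ref 1 (Or.inr rfl) p
      · exact Nat.le_add_right _ _
  · rw [map_mul, arr44.hom_of, arr44.hom_of]
    have h1 : B 2 2 = ref 1 := by simp [B]
    have h2 : B 0 0 = ref 0 := by simp [B]
    rw [h1, h2]
    show (1, 0, 0, 0) - ((0, 0, 0, 0) - p) = p + (1, 0, 0, 0)
    obtain ⟨x, y, z, w⟩ := p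
    ext <;> simp [add_comm]

/-! ### The classification -/

/-- The pairs of numbers for which the group is finite. -/
def Small (m n : ℕ) : Prop := m ≤ 2 ∨ n ≤ 2 ∨ (m = 3 ∧ n ≤ 5) ∨ (n = 3 ∧ m ≤ 5)

theorem finite_of_small {m n : ℕ} (h : Small m n) : Finite (Gam m n) := by
  have h2 : ∀ m n, m ≤ 2 → Finite (Gam m n) := fun m n hm => by
    obtain ⟨f, hf⟩ := exists_surj_rows hm n
    haveI := finite_two n
    exact Finite.of_surjective f hf
  have h5 : ∀ m, m ≤ 5 → Finite (Gam m 3) := fun m hm => by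
    obtain ⟨f, hf⟩ := exists_surj_rows hm 3
    haveI := finite_five
    exact Finite.of_surjective f hf
  rcases h with h | h | ⟨rfl, h⟩ | ⟨rfl, h⟩
  · exact h2 m n h
  · obtain ⟨f, hf⟩ := exists_surj_swap m n
    haveI := h2 n m h
    exact Finite.of_surjective f hf
  · obtain ⟨f, hf⟩ := exists_surj_swap 3 n
    haveI := h5 n h
    exact Finite.of_surjective f hf
  · exact h5 m h

theorem not_T_of_not_small {m n : ℕ} (h : ¬ Small m n) : ¬ KazhdanT (Gam m n) := by
  have h63 : ∀ m n, 6 ≤ m → 3 ≤ n → ¬ KazhdanT (Gam m n) := fun m n hm hn hT => by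
    obtain ⟨f, hf⟩ := exists_surj_rows hm n
    obtain ⟨g, hg⟩ := exists_surj_cols 6 hn
    exact not_T_63 ((hT.of_surj f hf).of_surj g hg)
  have h44 : ∀ m n, 4 ≤ m → 4 ≤ n → ¬ KazhdanT (Gam m n) := fun m n hm hn hT => by
    obtain ⟨f, hf⟩ := exists_surj_rows hm n
    obtain ⟨g, hg⟩ := exists_surj_cols 4 hn
    exact not_T_44 ((hT.of_surj f hf).of_surj g hg)
  unfold Small at h
  by_cases h1 : 4 ≤ m ∧ 4 ≤ n
  · exact h44 m n h1.1 h1.2
  by_cases h2 : 6 ≤ m ∧ 3 ≤ n
  · exact h63 m n h2.1 h2.2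
  have h3 : 3 ≤ m ∧ 6 ≤ n := by omega
  intro hT
  obtain ⟨f, hf⟩ := exists_surj_swap n m
  exact h63 n m h3.2 h3.1 (hT.of_surj f hf)

end Pool.Agent.H60.KT
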