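import Pool.Agent.H60.KT.FinPart

set_option autoImplicit false

/-!
# Surjections between the incidence groups, property (T)
-/

namespace Pool.Agent.H60.KT

theorem prod_ofFn_one {P : Type} [Group P] : ∀ k : ℕ, (List.ofFn fun _ : Fin k => (1 : P)).prod = 1
  | 0 => by simp
  | k + 1 => by rw [List.ofFn_succ, List.prod_cons, one_mul]; exact prod_ofFn_one k

theorem prod_pad {P : Type} [Group P] : ∀ (m k : ℕ) (f : Fin m → P),
    (List.ofFn fun i : Fin (m + k) => if h : (i : ℕ) < m then f ⟨i, h⟩ else 1).prod =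
      (List.ofFn f).prod := by
  intro m k f
  induction k with
  | zero =>
    congr 2
    funext i
    have hi : (i : ℕ) < m := i.2
    rw [dif_pos hi]
    rfl
  | succ k ih =>
    rw [← ih]
    show (List.ofFn fun i : Fin (m + k + 1) => if h : (i : ℕ) < m then f ⟨i, h⟩ else 1).prod = _
    rw [List.ofFn_succ', List.concat_eq_append, List.prod_append, List.prod_cons, List.prod_nil,
      mul_one, dif_neg (by simp), mul_one]
    rfl

variable {m n : ℕ} {P : Type} [Group P] {T : Fin m → Fin n → P}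

/-- Adding trivial rows. -/
theorem Arr.pad (h : Arr m n P T) (k : ℕ) :
    Arr (m + k) n P (fun i j => if h : (i : ℕ) < m then T ⟨i, h⟩ j else 1) where
  sq i j := by
    split
    · exact h.sq _ _
    · exact one_mul 1
  row_comm i j l := by
    split
    · exact h.row_comm _ _ _
    · rfl
  col_comm i l j := by
    split <;> split
    · exact h.col_comm _ _ _
    · rw [mul_one, one_mul]
    · rw [mul_one, one_mul]
    · rfl
  row i := by
    by_cases hi : (i : ℕ) < m
    · simp only [dif_pos hi]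
      exact h.row _
    · simp only [dif_neg hi]
      exact prod_ofFn_one n
  col j := by
    rw [prod_pad m k fun i => T i j]
    exact h.col j

/-- Removing rows. -/
theorem exists_surj_rows {m m' : ℕ} (h : m ≤ m') (n : ℕ) :
    ∃ f : Gam m' n →* Gam m n, Function.Surjective f := by
  obtain ⟨k, rfl⟩ := Nat.exists_eq_add_of_le h
  refine ⟨((arrX m n).pad k).hom, ((arrX m n).pad k).surj ?_⟩
  rw [eq_top_iff, ← closure_X]
  apply Subgroup.closure_mono
  rintro _ ⟨i, j, rfl⟩
  refine ⟨⟨i, by omega⟩, j, ?_⟩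
  rw [dif_pos i.2]

/-- Transposing. -/
theorem exists_surj_swap (m n : ℕ) : ∃ f : Gam n m →* Gam m n, Function.Surjective f := by
  refine ⟨(arrX m n).swap.hom, (arrX m n).swap.surj ?_⟩
  rw [eq_top_iff, ← closure_X]
  apply Subgroup.closure_mono
  rintro _ ⟨i, j, rfl⟩
  exact ⟨j, i, rfl⟩

/-- Removing columns. -/
theorem exists_surj_cols (m : ℕ) {n n' : ℕ} (h : n ≤ n') :
    ∃ f : Gam m n' →* Gam m n, Function.Surjective f := by
  obtain ⟨f, hf⟩ := exists_surj_swap n' m
  obtain ⟨g, hg⟩ := exists_surj_rows h m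
  obtain ⟨e, he⟩ := exists_surj_swap m n
  exact ⟨e.comp (g.comp f), he.comp (hg.comp hf)⟩

/-! ### Property (T) -/

/-- Property (T) passes to quotients. -/
theorem KazhdanT.of_surj {G K : Type} [Group G] [Group K] (hG : KazhdanT G) (f : G →* K)
    (hf : Function.Surjective f) : KazhdanT K := by
  classical
  intro H _ _ _ ρ hρ
  obtain ⟨v, hv, hv'⟩ := hG H (ρ.comp f) (fun S ε hε => by
    obtain ⟨v, h1, h2⟩ := hρ (S.image f) ε hε
    exact ⟨v, h1, fun g hg => h2 (f g) (Finset.mem_image_of_mem f hg)⟩)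
  refine ⟨v, hv, fun k => ?_⟩
  obtain ⟨g, rfl⟩ := hf k
  exact hv' g

/-- Finite groups have property (T). -/
theorem kazhdanT_of_finite (G : Type) [Group G] [Finite G] : KazhdanT G := by
  intro H _ _ _ ρ hρ
  haveI := Fintype.ofFinite G
  obtain ⟨v, hv, hv'⟩ := hρ Finset.univ (1 / 2) (by norm_num)
  refine ⟨∑ g : G, ρ g v, ?_, fun h => ?_⟩
  · intro h0
    have h1 : ‖∑ g : G, (ρ g v - v)‖ ≤ ∑ _g : G, (1 / 2 : ℝ) :=
      norm_sum_le_of_le _ fun g _ => (hv' g (Finset.mem_univ g)).le
    rw [Finset.sum_sub_distrib, h0, zero_sub, norm_neg, Finset.sum_const, Finset.sum_const,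
      Finset.card_univ, ← Nat.cast_smul_eq_nsmul ℝ, norm_smul, hv, mul_one, nsmul_eq_mul,
      Real.norm_natCast] at h1
    have h2 : (0 : ℝ) < Fintype.card G := by exact_mod_cast Fintype.card_pos
    linarith
  · rw [map_sum]
    rw [← Equiv.sum_comp (Equiv.mulLeft h) fun g => ρ g v]
    apply Finset.sum_congr rfl
    intro g _
    show ρ h (ρ g v) = ρ (h * g) v
    rw [map_mul]
    rfl

/-! ### Arrays of permutations of the lattice -/

/-- An array of permutations of the lattice which distort the box norm by at most two, such that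
some element of the group acts as a nonzero translation. -/
theorem not_T_of_arr {T : Fin m → Fin n → Equiv.Perm Z4} (h : Arr m n (Equiv.Perm Z4) T)
    (hN : ∀ i j p, N (T i j p) ≤ N p + 2) (g : Gam m n) (τ : Z4) (hτ : τ ≠ 0)
    (hg : ∀ p, h.hom g p = p + τ) : ¬ KazhdanT (Gam m n) := by
  intro hT
  have hb : ∀ g : Gam m n, ∃ c : ℕ, ∀ p, N (h.hom g p) ≤ N p + c ∧ N p ≤ N (h.hom g p) + c := by
    intro g
    have hg : g ∈ Subgroup.closure {g : Gam m n | ∃ i j, g = X m n i j} := by
      rw [closure_X]; trivial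
    induction hg using Subgroup.closure_induction with
    | mem y hy =>
      obtain ⟨i, j, rfl⟩ := hy
      refine ⟨2, fun p => ?_⟩
      rw [h.hom_of]
      refine ⟨hN i j p, ?_⟩
      have h1 := hN i j (T i j p)
      have h2 : T i j (T i j p) = p := by
        have := congrArg (fun e : Equiv.Perm Z4 => e p) (h.sq i j)
        exact this
      rwa [h2] at h1
    | one => exact ⟨0, fun p => by rw [map_one]; exact ⟨le_rfl, le_rfl⟩⟩
    | mul y z _ _ h1 h2 =>
      obtain ⟨c, hc⟩ := h1
      obtain ⟨d, hd⟩ := h2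
      refine ⟨c + d, fun p => ?_⟩
      have h3 := hd p
      have h4 := hc (h.hom z p)
      rw [map_mul]
      show N (h.hom y (h.hom z p)) ≤ _ ∧ _ ≤ N (h.hom y (h.hom z p)) + _
      omega
    | inv y _ h1 =>
      obtain ⟨c, hc⟩ := h1
      refine ⟨c, fun p => ?_⟩
      have h3 := hc ((h.hom y)⁻¹ p)
      rw [perm_apply_inv] at h3
      rw [map_inv]
      omega
  obtain ⟨v, hv, hv'⟩ := hT (Ell Z4) ((permRep Z4).comp h.hom)
    (almost h.hom fun g => (hb g).imp fun c hc p => (hc p).1)
  exact hv (no_invariant h.hom g τ hτ hg v (hv' g))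

end Pool.Agent.H60.KT
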