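import Pool.Agent.H60.KT.Defs

set_option autoImplicit false

/-!
# Actions on the lattice of dimension four which distort the box norm by a bounded amount
-/

namespace Pool.Agent.H60.KT

/-- The lattice. -/
abbrev Z4 : Type := ℤ × ℤ × ℤ × ℤ

/-- The Hilbert space `ℓ²(Z)`. -/
abbrev Ell (Z : Type) : Type := lp (fun _ : Z => ℂ) 2

theorem perm_apply_inv {Z : Type} (e : Equiv.Perm Z) (z : Z) : e ((e⁻¹ : Equiv.Perm Z) z) = z :=
  Equiv.apply_symm_apply e z

theorem perm_inv_apply {Z : Type} (e : Equiv.Perm Z) (z : Z) : (e⁻¹ : Equiv.Perm Z) (e z) = z :=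
  Equiv.symm_apply_apply e z

/-- The isometry `f ↦ f ∘ e` of `ℓ²(Z)`. -/
noncomputable def permIso {Z : Type} (e : Z ≃ Z) : Ell Z →ₗᵢ[ℂ] Ell Z where
  toFun := fun f => ⟨fun h => f (e h), by
    have h1 := (lp.memℓp f).summable (by norm_num)
    refine memℓp_gen ?_
    exact (e.summable_iff (f := fun h => ‖f h‖ ^ (2 : ENNReal).toReal)).2 h1⟩
  map_add' := fun f g => by ext h; rfl
  map_smul' := fun c f => by ext h; rfl
  norm_map' := fun f => by
    have h1 : (0 : ℝ) < (2 : ENNReal).toReal := by norm_num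
    rw [lp.norm_eq_tsum_rpow h1, lp.norm_eq_tsum_rpow h1]
    congr 1
    exact e.tsum_eq (fun h => ‖f h‖ ^ (2 : ENNReal).toReal)

/-- The unitary permutation representation. -/
noncomputable def permRep (Z : Type) : Equiv.Perm Z →* (Ell Z ≃ₗᵢ[ℂ] Ell Z) where
  toFun e := LinearIsometryEquiv.ofSurjective (permIso (e⁻¹ : Equiv.Perm Z)) (fun f => ⟨permIso e f, by
    ext z
    show f (e ((e⁻¹ : Equiv.Perm Z) z)) = f z
    rw [perm_apply_inv]⟩)
  map_one' := by
    ext f z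
    rfl
  map_mul' g h := by
    ext f z
    rfl

theorem permRep_apply {Z : Type} (e : Equiv.Perm Z) (f : Ell Z) (z : Z) :
    (permRep Z e f : Z → ℂ) z = f ((e⁻¹ : Equiv.Perm Z) z) := rfl

/-- The box norm. -/
def N (p : Z4) : ℕ := max (max p.1.natAbs p.2.1.natAbs) (max p.2.2.1.natAbs p.2.2.2.natAbs)

/-- The box of radius `m`. -/
noncomputable def Box (m : ℕ) : Finset Z4 :=
  Finset.Icc (-(m : ℤ)) m ×ˢ Finset.Icc (-(m : ℤ)) m ×ˢ Finset.Icc (-(m : ℤ)) m ×ˢ
    Finset.Icc (-(m : ℤ)) m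

theorem mem_Box (m : ℕ) (p : Z4) : p ∈ Box m ↔ N p ≤ m := by
  unfold Box N
  simp only [Finset.mem_product, Finset.mem_Icc]
  omega

theorem card_Box (m : ℕ) : (Box m).card = (2 * m + 1) ^ 4 := by
  unfold Box
  simp only [Finset.card_product, Int.card_Icc]
  have : ((m : ℤ) + 1 - -(m : ℤ)).toNat = 2 * m + 1 := by omega
  rw [this]
  ring

/-- The tent function. -/
noncomputable def tent (k : ℕ) (p : Z4) : ℝ := max 0 (2 * (k : ℝ) - N p)

theorem tent_nonneg (k : ℕ) (p : Z4) : 0 ≤ tent k p := le_max_left _ _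

theorem tent_ge {k : ℕ} {p : Z4} (h : N p ≤ k) : (k : ℝ) ≤ tent k p := by
  have : (N p : ℝ) ≤ k := by exact_mod_cast h
  exact le_trans (by linarith) (le_max_right _ _)

theorem tent_zero {k : ℕ} {p : Z4} (h : 2 * k ≤ N p) : tent k p = 0 := by
  have : 2 * (k : ℝ) ≤ N p := by exact_mod_cast h
  exact max_eq_left (by linarith)

theorem tent_lip (k : ℕ) {p q : Z4} {c : ℕ} (h1 : N p ≤ N q + c) (h2 : N q ≤ N p + c) :
    |tent k p - tent k q| ≤ c := by
  have h1' : (N p : ℝ) ≤ N q + c := by exact_mod_cast h1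
  have h2' : (N q : ℝ) ≤ N p + c := by exact_mod_cast h2
  unfold tent
  have h3 := abs_max_sub_max_le_max (0 : ℝ) (2 * (k : ℝ) - N p) 0 (2 * (k : ℝ) - N q)
  refine h3.trans ?_
  rw [sub_zero, abs_zero]
  apply max_le (by positivity)
  rw [abs_le]
  constructor <;> linarith

/-- The tent function as a vector. -/
noncomputable def tv (k : ℕ) : Ell Z4 := ⟨fun p => (tent k p : ℂ), by
  apply memℓp_gen
  apply summable_of_hasFiniteSupport
  refine (Box (2 * k)).finite_toSet.subset ?_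
  intro p hp
  by_contra h
  rw [Finset.mem_coe, mem_Box] at h
  apply hp
  show ‖(tent k p : ℂ)‖ ^ (2 : ENNReal).toReal = 0
  rw [tent_zero (by omega)]
  simp⟩

theorem tv_apply (k : ℕ) (p : Z4) : (tv k : Z4 → ℂ) p = (tent k p : ℂ) := rfl

theorem norm_sq_eq {Z : Type} (f : Ell Z) : ‖f‖ ^ 2 = ∑' z, ‖f z‖ ^ 2 := by
  have h := lp.norm_rpow_eq_tsum (p := 2) (by norm_num) f
  have e : (2 : ENNReal).toReal = ((2 : ℕ) : ℝ) := by norm_num
  rw [e] at h
  simp only [Real.rpow_natCast] at h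
  exact h

theorem summable_sq {Z : Type} (f : Ell Z) : Summable fun z => ‖f z‖ ^ 2 := by
  have h := (lp.memℓp f).summable (by norm_num)
  have e : (2 : ENNReal).toReal = ((2 : ℕ) : ℝ) := by norm_num
  rw [e] at h
  simp only [Real.rpow_natCast] at h
  exact h

theorem norm_tv_ge (k : ℕ) : (k : ℝ) * (2 * k + 1) ^ 2 ≤ ‖tv k‖ := by
  apply le_of_sq_le_sq _ (norm_nonneg _)
  rw [norm_sq_eq]
  have h1 : ∑ p ∈ Box k, ‖(tv k : Z4 → ℂ) p‖ ^ 2 ≤ ∑' p, ‖(tv k : Z4 → ℂ) p‖ ^ 2 :=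
    (summable_sq (tv k)).sum_le_tsum _ (fun _ _ => by positivity)
  refine le_trans ?_ h1
  have h2 : ∑ _p ∈ Box k, (k : ℝ) ^ 2 ≤ ∑ p ∈ Box k, ‖(tv k : Z4 → ℂ) p‖ ^ 2 := by
    apply Finset.sum_le_sum
    intro p hp
    rw [mem_Box] at hp
    rw [tv_apply, Complex.norm_real, Real.norm_eq_abs, abs_of_nonneg (tent_nonneg _ _)]
    exact pow_le_pow_left₀ (by positivity) (tent_ge hp) 2
  refine le_trans (le_of_eq ?_) h2
  rw [Finset.sum_const, card_Box, nsmul_eq_mul]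
  push_cast
  ring

theorem norm_diff_le (e : Equiv.Perm Z4) (k c : ℕ) (h1 : ∀ p, N (e p) ≤ N p + c)
    (h2 : ∀ p, N p ≤ N (e p) + c) :
    ‖permRep Z4 e (tv k) - tv k‖ ≤ c * (2 * (2 * k + c) + 1) ^ 2 := by
  apply le_of_sq_le_sq _ (by positivity)
  rw [norm_sq_eq]
  have key : ∀ p, ‖(permRep Z4 e (tv k) - tv k : Ell Z4) p‖ =
      |tent k ((e⁻¹ : Equiv.Perm Z4) p) - tent k p| := by
    intro p
    show ‖(permRep Z4 e (tv k) : Z4 → ℂ) p - (tv k : Z4 → ℂ) p‖ = _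
    rw [permRep_apply, tv_apply, tv_apply, ← Complex.ofReal_sub, Complex.norm_real,
      Real.norm_eq_abs]
  have h3 : ∀ p, N ((e⁻¹ : Equiv.Perm Z4) p) ≤ N p + c := fun p => by
    have := h2 ((e⁻¹ : Equiv.Perm Z4) p)
    rwa [perm_apply_inv] at this
  have h4 : ∀ p, N p ≤ N ((e⁻¹ : Equiv.Perm Z4) p) + c := fun p => by
    have := h1 ((e⁻¹ : Equiv.Perm Z4) p)
    rwa [perm_apply_inv] at this
  have hsupp : ∀ p ∉ Box (2 * k + c), ‖(permRep Z4 e (tv k) - tv k : Ell Z4) p‖ ^ 2 = 0 := by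
    intro p hp
    rw [mem_Box, not_le] at hp
    have h5 := h4 p
    rw [key, tent_zero (by omega), tent_zero (by omega)]
    simp
  rw [tsum_eq_sum hsupp]
  have h5 : ∑ p ∈ Box (2 * k + c), ‖(permRep Z4 e (tv k) - tv k : Ell Z4) p‖ ^ 2 ≤
      ∑ _p ∈ Box (2 * k + c), (c : ℝ) ^ 2 := by
    apply Finset.sum_le_sum
    intro p _
    rw [key]
    exact pow_le_pow_left₀ (abs_nonneg _) (tent_lip k (h3 p) (h4 p)) 2
  refine h5.trans (le_of_eq ?_)
  rw [Finset.sum_const, card_Box, nsmul_eq_mul]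
  push_cast
  ring

/-- An action on the lattice which distorts the box norm by a bounded amount has almost invariant
vectors. -/
theorem almost {G : Type} [Group G] (φ : G →* Equiv.Perm Z4)
    (hφ : ∀ g : G, ∃ c : ℕ, ∀ p, N (φ g p) ≤ N p + c) (S : Finset G) (ε : ℝ) (hε : 0 < ε) :
    ∃ v : Ell Z4, ‖v‖ = 1 ∧ ∀ g ∈ S, ‖((permRep Z4).comp φ) g v - v‖ < ε := by
  choose c hc using hφ
  set C : ℕ := ∑ g ∈ S, (c g + c g⁻¹) + 1 with hC
  obtain ⟨k, hk⟩ := exists_nat_gt (max (C : ℝ) (9 * C / ε))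
  have hk1 : (C : ℝ) < k := (le_max_left _ _).trans_lt hk
  have hk2 : 9 * C / ε < k := (le_max_right _ _).trans_lt hk
  have hC1 : (1 : ℝ) ≤ C := by
    rw [hC]; push_cast
    have : (0 : ℝ) ≤ ∑ g ∈ S, ((c g : ℝ) + c g⁻¹) := Finset.sum_nonneg fun _ _ => by positivity
    linarith
  have hk0 : (0 : ℝ) < k := by linarith
  have hnv : 0 < ‖tv k‖ := lt_of_lt_of_le (by positivity) (norm_tv_ge k)
  refine ⟨((‖tv k‖⁻¹ : ℝ) : ℂ) • tv k, ?_, fun g hg => ?_⟩
  · rw [norm_smul, Complex.norm_real, Real.norm_eq_abs, abs_of_pos (by positivity),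
      inv_mul_cancel₀ hnv.ne']
  · rw [map_smul, ← smul_sub, norm_smul, Complex.norm_real, Real.norm_eq_abs,
      abs_of_pos (by positivity), inv_mul_lt_iff₀ hnv]
    have hcg : c g + c g⁻¹ ≤ C := by
      have := Finset.single_le_sum (f := fun g => c g + c g⁻¹) (fun _ _ => Nat.zero_le _) hg
      omega
    have h1 : ∀ p, N (φ g p) ≤ N p + C := fun p => by
      have := hc g p
      omega
    have h2 : ∀ p, N p ≤ N (φ g p) + C := fun p => by
      have := hc g⁻¹ (φ g p)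
      rw [map_inv, perm_inv_apply] at this
      omega
    have h3 := norm_diff_le (φ g) k C h1 h2
    have h4 := norm_tv_ge k
    refine lt_of_le_of_lt h3 (lt_of_lt_of_le ?_ (mul_le_mul_of_nonneg_right h4 hε.le))
    have h5 : (2 * (2 * (k : ℝ) + C) + 1) ≤ 3 * (2 * k + 1) := by linarith
    have h6 : (2 * (2 * (k : ℝ) + C) + 1) ^ 2 ≤ 9 * (2 * k + 1) ^ 2 := by
      have := pow_le_pow_left₀ (by positivity) h5 2
      nlinarith
    have h7 : 9 * (C : ℝ) < k * ε := by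
      rwa [div_lt_iff₀ hε] at hk2
    have h8 : (0 : ℝ) < (2 * k + 1) ^ 2 := by positivity
    calc (C : ℝ) * (2 * (2 * (k : ℝ) + C) + 1) ^ 2 ≤ C * (9 * (2 * k + 1) ^ 2) :=
          mul_le_mul_of_nonneg_left h6 (by positivity)
      _ = (9 * C) * (2 * k + 1) ^ 2 := by ring
      _ < (k * ε) * (2 * k + 1) ^ 2 := mul_lt_mul_of_pos_right h7 h8
      _ = k * (2 * k + 1) ^ 2 * ε := by ring

/-- If some element acts as a nonzero translation there are no invariant vectors. -/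
theorem no_invariant {G : Type} [Group G] (φ : G →* Equiv.Perm Z4) (g : G) (τ : Z4) (hτ : τ ≠ 0)
    (hg : ∀ p, φ g p = p + τ) (v : Ell Z4) (hv : ((permRep Z4).comp φ) g v = v) : v = 0 := by
  have h1 : ∀ p, (v : Z4 → ℂ) (p + τ) = v p := by
    intro p
    have h2 : ((permRep Z4 (φ g) v : Ell Z4) : Z4 → ℂ) (p + τ) = (v : Z4 → ℂ) (p + τ) := by
      have : permRep Z4 (φ g) v = v := hv
      rw [this]
    rw [permRep_apply, ← hg p, perm_inv_apply, hg p] at h2
    exact h2.symm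
  have h2 : ∀ (n : ℕ) (p : Z4), (v : Z4 → ℂ) (p + n • τ) = v p := by
    intro n
    induction n with
    | zero => intro p; simp
    | succ n ih =>
      intro p
      rw [succ_nsmul, ← add_assoc, h1, ih]
  ext p
  have hinj : Function.Injective (fun n : ℕ => p + n • τ) := by
    intro m n hmn
    have h3 : m • τ = n • τ := add_left_cancel hmn
    by_contra hne
    apply hτ
    obtain ⟨a, b, c, d⟩ := τ
    simp only [Prod.smul_mk, Prod.mk.injEq, nsmul_eq_mul] at h3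
    have h4 : (m : ℤ) - n ≠ 0 := by omega
    have key : ∀ z : ℤ, (m : ℤ) * z = n * z → z = 0 := by
      intro z hz
      have : ((m : ℤ) - n) * z = 0 := by rw [sub_mul, hz, sub_self]
      exact (mul_eq_zero.1 this).resolve_left h4
    show (a, b, c, d) = 0
    rw [key a h3.1, key b h3.2.1, key c h3.2.2.1, key d h3.2.2.2]
    rfl
  have h3 := (summable_sq v).comp_injective hinj
  have h4 : (fun n : ℕ => ‖(v : Z4 → ℂ) p‖ ^ 2) =
      (fun z => ‖(v : Z4 → ℂ) z‖ ^ 2) ∘ (fun n : ℕ => p + n • τ) := by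
    funext n
    show ‖(v : Z4 → ℂ) p‖ ^ 2 = ‖(v : Z4 → ℂ) (p + n • τ)‖ ^ 2
    rw [h2]
  rw [← h4, summable_const_iff] at h3
  show (v : Z4 → ℂ) p = 0
  rw [← norm_eq_zero]
  exact pow_eq_zero_iff (two_ne_zero) |>.1 h3

end Pool.Agent.H60.KT
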